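import Pool.Agent.Q129.Toads.Sound
import Pool.Agent.Q129.Toads.Data

/-!
# The value of `T^7 □^7 F^6` is neither `1` nor `1*`
-/

namespace Pool.Agent.Results.MP_a6e7b1_co.SevenToads

open Pool.Agent.Q129.Toads

lemma start_eq : start 7 7 6 = pos 127 1032192 := by
  have h : ∀ i < 20, start 7 7 6 i = pos 127 1032192 i := by
    intro i hi
    interval_cases i <;> rfl
  funext i
  rcases lt_or_ge i 20 with hi | hi
  · exact h i hi
  · have h1 : Nat.testBit 127 i = false :=
      Nat.testBit_lt_two_pow (lt_of_lt_of_le (by norm_num)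
        (Nat.pow_le_pow_right (by norm_num) hi))
    have h2 : Nat.testBit 1032192 i = false :=
      Nat.testBit_lt_two_pow (lt_of_lt_of_le (by norm_num)
        (Nat.pow_le_pow_right (by norm_num) hi))
    have h3 : ¬ i < 7 := by omega
    have h4 : ¬ i < 14 := by omega
    have h5 : ¬ i < 20 := by omega
    simp [start, pos, h1, h2, h3, h4, h5]

lemma get0 : W.get 0 = 2181843386495 := by decide +kernel

lemma get256 : W.get 256 = 2181843386559 := by decide +kernel

/-- Right, to move in `T^7 □^7 F^6 - 1`, loses. -/
lemma rightLoses : Loses Sum false (start 7 7 6, .one) := by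
  have h := loses_of_chk check_W _ 0 rfl
  rw [get0] at h
  rw [start_eq]
  exact h

/-- Right, to move after the best first move of Left in `T^7 □^7 F^6 - 1`, loses. -/
lemma rightLoses' : Loses Sum false (pos 191 1032192, .one) := by
  have h := loses_of_chk check_W _ 256 rfl
  rw [get256] at h
  exact h

lemma firstMove : Sum.move true (start 7 7 6, .one) (pos 191 1032192, .one) := by
  refine Or.inl ⟨⟨6, rfl, Or.inl ⟨by norm_num, rfl, ?_⟩⟩, rfl⟩
  rw [start_eq]
  exact (toad_slide (T := 127) (F := 1032192) (i := 6) rfl rfl rfl).symm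

/-- The value of the Toads and Frogs position `T^7 □^7 F^6` (seven toads, seven empty squares and
six frogs on a strip with twenty squares) is neither `1` nor `1*`. -/
theorem result : ¬ SameValue (toadsAndFrogs 20) (start 7 7 6) small .one ∧
    ¬ SameValue (toadsAndFrogs 20) (start 7 7 6) small .oneStar := by
  refine ⟨fun h => not_loses h.1 _ firstMove rightLoses', fun h => ?_⟩
  exact not_loses h.1 (start 7 7 6, .one) (Or.inr ⟨rfl, rfl, rfl⟩) rightLoses

end Pool.Agent.Results.MP_a6e7b1_co.SevenToads
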